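import Mathlib
import Pool.Agent.H13.DigitOut

namespace Pool.Agent.Results.MP_d7e141_nt.Bound

open Pool.Agent.H13.DigitOut

/-- digit sums in base `b` of the positive multiples of `n` -/
def Out (b n : ℕ) : Set ℕ := {u | 0 < u ∧ ∃ N, 0 < N ∧ n ∣ N ∧ (Nat.digits b N).sum = u}

theorem result :
    (∀ b n m k : ℕ, 2 ≤ b → 1 ≤ n → m ∣ b ^ k → Nat.gcd (b - 1) n = 1 →
      ∀ u, 0 < u → u ∉ Out b (n * m) → u + 2 ≤ n) ∧
    (∀ b m k : ℕ, 2 ≤ b → Even b → m ∣ b ^ k →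
      IsGreatest {u | 0 < u ∧ u ∉ Out b ((b + 1) * m)} (b - 1)) := by
  have h1 : ∀ b n m k : ℕ, 2 ≤ b → 1 ≤ n → m ∣ b ^ k → Nat.gcd (b - 1) n = 1 →
      ∀ u, 0 < u → u ∉ Out b (n * m) → u + 2 ≤ n := by
    intro b n m k hb hn hm hg u hu hno
    by_contra hc
    obtain ⟨N, a1, a2, a3⟩ := main b n u hb hn hu (by rw [hg]; exact one_dvd _)
      (by rw [hg, Nat.div_one]; omega)
    refine hno ⟨hu, b ^ k * N, by positivity, ?_, by rw [s_pow _ _ _ hb, a3]⟩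
    rw [mul_comm n]
    exact mul_dvd_mul hm a2
  refine ⟨h1, fun b m k hb he hm => ⟨⟨by omega, ?_⟩, ?_⟩⟩
  · rintro ⟨-, N, -, a2, a3⟩
    obtain ⟨i, j, e1, e2⟩ := alt b hb N
    have e3 : ((b : ℤ) + 1) ∣ (N : ℤ) := by exact_mod_cast (dvd_mul_right _ _).trans a2
    have e4 : ((b : ℤ) + 1) ∣ (i : ℤ) - j := by simpa using dvd_sub e3 e2
    have e5 := Int.eq_zero_of_abs_lt_dvd e4 (by rw [abs_lt]; constructor <;> omega)
    obtain ⟨c, hc⟩ := he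
    omega
  · rintro u ⟨hu, hno⟩
    have hg : Nat.gcd (b - 1) (b + 1) = 1 := by
      obtain ⟨c, hc⟩ := he
      rw [show b + 1 = 2 + (b - 1) by omega, Nat.gcd_add_self_right]
      exact (Nat.coprime_two_right.2 ⟨c - 1, by omega⟩)
    have := h1 b (b + 1) m k hb (by omega) hm hg u hu hno
    omega

end Pool.Agent.Results.MP_d7e141_nt.Bound
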